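import Mathlib
import Pool.Agent.W543.GE.Stm

/-!
# Good endomorphisms of free algebras: the part NIL
-/

set_option autoImplicit false

universe u

namespace Pool.Agent.W15.GE

open Pool.Agent.W543.GE

section

variable {F : Type u} [Field F] {W : Type u} [AddCommGroup W] [Module F W] {g : ℕ}

/-- The sum of the images of a subspace. -/
def phi (T : Fin g → Module.End F W) (U : Submodule F W) : Submodule F W := ⨆ j, U.map (T j)

theorem phi_mono (T : Fin g → Module.End F W) : Monotone (phi T) := fun _ _ h =>
  iSup_mono fun _ => Submodule.map_mono h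

theorem phi_anti (T : Fin g → Module.End F W) (k : ℕ) :
    (phi T)^[k + 1] ⊤ ≤ (phi T)^[k] ⊤ := by
  induction k with
  | zero => exact le_top
  | succ k ih =>
    have h := phi_mono T ih
    rw [Function.iterate_succ_apply' (phi T) (k + 1), Function.iterate_succ_apply' (phi T) k]
    rw [Function.iterate_succ_apply' (phi T) k] at h
    exact h

theorem word_mem (T : Fin g → Module.End F W) (w : List (Fin g)) (v : W) :
    (w.map T).prod v ∈ (phi T)^[w.length] ⊤ := by
  induction w with
  | nil => exact Submodule.mem_top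
  | cons j w ih =>
    rw [List.map_cons, List.prod_cons, List.length_cons, Function.iterate_succ_apply']
    exact Submodule.mem_iSup_of_mem j (Submodule.mem_map_of_mem ih)

theorem mem_phi (T : Fin g → Module.End F W) (U : Submodule F W) (v : W) (h : v ∈ phi T U) :
    ∃ u : Fin g → U, v = ∑ j, T j (u j) := by
  obtain ⟨f, hf⟩ := (Submodule.mem_iSup_iff_exists_finsupp _ _).mp h
  have h2 : ∀ j, ∃ u : U, T j u = f j := by
    intro j
    obtain ⟨u, hu, hu2⟩ := Submodule.mem_map.mp (hf.1 j)
    exact ⟨⟨u, hu⟩, hu2⟩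
  choose u hu using h2
  refine ⟨u, ?_⟩
  rw [← hf.2, Finsupp.sum_fintype _ _ (fun _ => rfl)]
  exact Finset.sum_congr rfl fun j _ => (hu j).symm

end

/-- PART NIL. -/
theorem t_NIL : NIL_stmt.{u} := by
  intro F _ W _ _ _ g T H
  have anti : Antitone (fun k : ℕ => (phi T)^[k] ⊤) := antitone_nat_of_succ_le (phi_anti T)
  obtain ⟨n, hn⟩ := IsArtinian.monotone_stabilizes (R := F) (M := W)
    ⟨fun k : ℕ => OrderDual.toDual ((phi T)^[k] ⊤), fun a b h => anti h⟩
  have hst : (phi T)^[n] ⊤ = phi T ((phi T)^[n] ⊤) := by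
    have := hn (n + 1) (Nat.le_succ n)
    have h2 : (phi T)^[n] ⊤ = (phi T)^[n + 1] ⊤ := this
    rw [Function.iterate_succ_apply'] at h2
    exact h2
  set V : Submodule F W := (phi T)^[n] ⊤ with hV
  have hb : V = ⊥ := by
    let b := Module.finBasis F V
    have h1 : ∀ a, ∃ u : Fin g → V, (b a : W) = ∑ j, T j (u j) := fun a =>
      mem_phi T V _ (hst ▸ (b a).2)
    choose u hu using h1
    have h2 := H (Module.finrank F V) (fun j => Matrix.of fun a c => b.repr (u a j) c)
      (fun a => (b a : W)) (by
        intro a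
        show (b a : W) = ∑ j, ∑ c, b.repr (u a j) c • T j (b c)
        rw [hu a]
        refine Finset.sum_congr rfl fun j _ => ?_
        conv_lhs => rw [← b.sum_repr (u a j)]
        rw [Submodule.coe_sum, map_sum]
        refine Finset.sum_congr rfl fun c _ => ?_
        rw [Submodule.coe_smul, map_smul])
    rw [← Submodule.subsingleton_iff_eq_bot]
    have h3 : ∀ a, b a = 0 := fun a => Subtype.ext (congrFun h2 a)
    refine ⟨fun x y => ?_⟩
    rw [← b.sum_repr x, ← b.sum_repr y]
    simp [h3]
  refine ⟨n, fun w hw => LinearMap.ext fun v => ?_⟩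
  have h4 := word_mem T w v
  have h5 : (phi T)^[w.length] ⊤ ≤ V := anti hw
  rw [hb] at h5
  exact (Submodule.mem_bot F).mp (h5 h4)

end Pool.Agent.W15.GE
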